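import Pool.Agent.Helper6.AK.DGoals

/-! Packet AKD-NUL: short words are nearly uniform on pairs of points. -/

set_option linter.unusedSectionVars false

namespace Pool.Agent.Helper42.AK

open Matrix Equiv Pool.Agent.Helper15.An Pool.Agent.Helper6.FixK
  Pool.Agent.Helper6.T5 Pool.Agent.Helper6.W Pool.Agent.Helper6.AK

section gen
variable {X : Type} [Fintype X] [DecidableEq X] {k : ℕ}

/-- the lazy walk -/
noncomputable def lazy (z : Fin k → Perm X) (f : X → ℝ) : X → ℝ := fun a =>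
  f a / 2 + (4 * (k : ℝ))⁻¹ * ∑ i, (f (z i a) + f ((z i)⁻¹ a))

theorem lazy_sum (hk : 0 < k) (z : Fin k → Perm X) (f : X → ℝ) :
    ∑ a, lazy z f a = ∑ a, f a := by
  unfold lazy
  rw [Finset.sum_add_distrib, ← Finset.mul_sum, Finset.sum_comm]
  have h : ∀ i, ∑ a, (f (z i a) + f ((z i)⁻¹ a)) = 2 * ∑ a, f a := by
    intro i
    rw [Finset.sum_add_distrib, Equiv.sum_comp (z i) f, Equiv.sum_comp ((z i)⁻¹) f]; ring
  simp_rw [h]
  rw [Finset.sum_const, Finset.card_univ, Fintype.card_fin, nsmul_eq_mul, ← Finset.sum_div]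
  have hk' : (k : ℝ) ≠ 0 := by
    have : k ≠ 0 := by omega
    exact_mod_cast this
  field_simp
  ring

theorem inner_lazy (z : Fin k → Perm X) (φ ψ : X → ℝ) :
    ∑ a, φ a * lazy z ψ a = (∑ a, φ a * ψ a) / 2 +
      (4 * (k : ℝ))⁻¹ * ∑ i, (∑ a, φ a * ψ (z i a) + ∑ a, φ a * ψ ((z i)⁻¹ a)) := by
  unfold lazy
  have h1 : ∀ a, φ a * (ψ a / 2 + (4 * (k : ℝ))⁻¹ * ∑ i, (ψ (z i a) + ψ ((z i)⁻¹ a))) =
      φ a * ψ a / 2 + (4 * (k : ℝ))⁻¹ * ∑ i, (φ a * ψ (z i a) + φ a * ψ ((z i)⁻¹ a)) := by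
    intro a
    have : ∑ i, (φ a * ψ (z i a) + φ a * ψ ((z i)⁻¹ a)) =
        φ a * ∑ i, (ψ (z i a) + ψ ((z i)⁻¹ a)) := by
      rw [Finset.mul_sum]
      exact Finset.sum_congr rfl fun i _ => by ring
    rw [this]; ring
  simp_rw [h1]
  rw [Finset.sum_add_distrib, ← Finset.mul_sum, Finset.sum_comm, ← Finset.sum_div]
  simp_rw [Finset.sum_add_distrib]

theorem shift_adj (σ : Perm X) (φ ψ : X → ℝ) :
    ∑ a, φ a * ψ (σ⁻¹ a) = ∑ a, ψ a * φ (σ a) := by
  rw [← Equiv.sum_comp σ (fun a => φ a * ψ (σ⁻¹ a))]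
  refine Finset.sum_congr rfl fun a _ => ?_
  rw [show σ⁻¹ (σ a) = a from σ.symm_apply_apply a, mul_comm]

theorem lazy_adj (z : Fin k → Perm X) (φ ψ : X → ℝ) :
    ∑ a, φ a * lazy z ψ a = ∑ a, ψ a * lazy z φ a := by
  rw [inner_lazy, inner_lazy]
  congr 2
  · exact Finset.sum_congr rfl fun a _ => mul_comm _ _
  · refine Finset.sum_congr rfl fun i _ => ?_
    rw [shift_adj (z i) φ ψ, shift_adj (z i) ψ φ, add_comm]

theorem shift_ge (σ : Perm X) (φ : X → ℝ) :
    -∑ a, φ a ^ 2 ≤ ∑ a, φ a * φ (σ a) := by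
  have h1 : ∑ a, φ (σ a) ^ 2 = ∑ a, φ a ^ 2 := Equiv.sum_comp σ (fun a => φ a ^ 2)
  have h2 : 0 ≤ ∑ a, (φ a + φ (σ a)) ^ 2 := Finset.sum_nonneg fun a _ => sq_nonneg _
  have h3 : ∑ a, (φ a + φ (σ a)) ^ 2 =
      ∑ a, φ a ^ 2 + 2 * ∑ a, φ a * φ (σ a) + ∑ a, φ (σ a) ^ 2 := by
    rw [Finset.mul_sum, ← Finset.sum_add_distrib, ← Finset.sum_add_distrib]
    exact Finset.sum_congr rfl fun a _ => by ring
  linarith

theorem lazy_nonneg (hk : 0 < k) (z : Fin k → Perm X) (φ : X → ℝ) :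
    0 ≤ ∑ a, φ a * lazy z φ a := by
  rw [inner_lazy]
  have hk' : (0 : ℝ) < k := by exact_mod_cast hk
  have h1 : ∑ i : Fin k, (-(2 * ∑ a, φ a ^ 2)) ≤
      ∑ i, (∑ a, φ a * φ (z i a) + ∑ a, φ a * φ ((z i)⁻¹ a)) := by
    refine Finset.sum_le_sum fun i _ => ?_
    have := shift_ge (z i) φ
    have := shift_ge (z i)⁻¹ φ
    linarith
  rw [Finset.sum_const, Finset.card_univ, Fintype.card_fin, nsmul_eq_mul] at h1
  have h2 : (4 * (k : ℝ))⁻¹ * ((k : ℝ) * (-(2 * ∑ a, φ a ^ 2))) = -(∑ a, φ a ^ 2) / 2 := by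
    field_simp
    ring
  have h3 := mul_le_mul_of_nonneg_left h1 (by positivity : (0 : ℝ) ≤ (4 * (k : ℝ))⁻¹)
  rw [h2] at h3
  have h4 : ∑ a, φ a * φ a = ∑ a, φ a ^ 2 := Finset.sum_congr rfl fun a _ => by ring
  rw [h4]
  linarith

/-- the gap hypothesis -/
def Gap (z : Fin k → Perm X) (ε : ℝ) : Prop := ∀ φ : X → ℝ, ∑ a, φ a = 0 →
  ∑ a, φ a * ((2 * (k : ℝ))⁻¹ * ∑ i, (φ (z i a) + φ ((z i)⁻¹ a))) ≤ (1 - ε) * ∑ a, φ a ^ 2

theorem lazy_le {z : Fin k → Perm X} {ε : ℝ} (hgap : Gap z ε) (φ : X → ℝ)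
    (h0 : ∑ a, φ a = 0) :
    ∑ a, φ a * lazy z φ a ≤ (1 - ε / 2) * ∑ a, φ a ^ 2 := by
  have h1 := hgap φ h0
  have h2 : ∑ a, φ a * lazy z φ a = (∑ a, φ a ^ 2) / 2 +
      (∑ a, φ a * ((2 * (k : ℝ))⁻¹ * ∑ i, (φ (z i a) + φ ((z i)⁻¹ a)))) / 2 := by
    rw [Finset.sum_div, Finset.sum_div, ← Finset.sum_add_distrib]
    refine Finset.sum_congr rfl fun a _ => ?_
    unfold lazy
    have : (4 * (k : ℝ))⁻¹ = (2 * (k : ℝ))⁻¹ / 2 := by
      rw [mul_inv, mul_inv]; ring
    rw [this]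
    ring
  rw [h2]
  linarith

theorem lazy_sub (z : Fin k → Perm X) (φ ψ : X → ℝ) (s : ℝ) (a : X) :
    lazy z (fun a => φ a - s * ψ a) a = lazy z φ a - s * lazy z ψ a := by
  unfold lazy
  have : ∑ i, (φ (z i a) - s * ψ (z i a) + (φ ((z i)⁻¹ a) - s * ψ ((z i)⁻¹ a))) =
      ∑ i, (φ (z i a) + φ ((z i)⁻¹ a)) - s * ∑ i, (ψ (z i a) + ψ ((z i)⁻¹ a)) := by
    rw [Finset.mul_sum, ← Finset.sum_sub_distrib]
    exact Finset.sum_congr rfl fun i _ => by ring
  rw [this]
  ring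

theorem lazy_contr (hk : 0 < k) {z : Fin k → Perm X} {ε : ℝ} (hε1 : ε ≤ 1)
    (hgap : Gap z ε) (φ : X → ℝ) (h0 : ∑ a, φ a = 0) :
    ∑ a, lazy z φ a ^ 2 ≤ (1 - ε / 2) ^ 2 * ∑ a, φ a ^ 2 := by
  set c : ℝ := 1 - ε / 2 with hc
  have hc0 : 0 < c := by rw [hc]; linarith
  set ψ := lazy z φ with hψ
  have h1 := lazy_le hgap φ h0
  have h2 := lazy_le hgap ψ (by rw [hψ, lazy_sum hk, h0])
  have h3 := lazy_nonneg hk z (fun a => φ a - c⁻¹ * ψ a)
  have h4 : ∑ a, (φ a - c⁻¹ * ψ a) * lazy z (fun a => φ a - c⁻¹ * ψ a) a =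
      ∑ a, φ a * ψ a - 2 * c⁻¹ * ∑ a, ψ a ^ 2 + c⁻¹ ^ 2 * ∑ a, ψ a * lazy z ψ a := by
    have e1 : ∑ a, φ a * lazy z ψ a = ∑ a, ψ a ^ 2 := by
      rw [lazy_adj]
      exact Finset.sum_congr rfl fun a _ => by rw [← hψ]; ring
    have e2 : ∀ a, (φ a - c⁻¹ * ψ a) * lazy z (fun a => φ a - c⁻¹ * ψ a) a =
        φ a * ψ a - c⁻¹ * (φ a * lazy z ψ a) - c⁻¹ * ψ a ^ 2 +
          c⁻¹ ^ 2 * (ψ a * lazy z ψ a) := by
      intro a
      rw [lazy_sub, ← hψ]
      ring
    simp_rw [e2]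
    rw [Finset.sum_add_distrib, Finset.sum_sub_distrib, Finset.sum_sub_distrib,
      ← Finset.mul_sum, ← Finset.mul_sum, ← Finset.mul_sum, e1]
    ring
  rw [h4] at h3
  have h5 : c⁻¹ ^ 2 * ∑ a, ψ a * lazy z ψ a ≤ c⁻¹ * ∑ a, ψ a ^ 2 := by
    calc c⁻¹ ^ 2 * ∑ a, ψ a * lazy z ψ a ≤ c⁻¹ ^ 2 * (c * ∑ a, ψ a ^ 2) :=
          mul_le_mul_of_nonneg_left h2 (by positivity)
      _ = _ := by field_simp
  have h6 : c⁻¹ * ∑ a, ψ a ^ 2 ≤ c * ∑ a, φ a ^ 2 := by
    have e3 : ∑ a, φ a * ψ a ≤ c * ∑ a, φ a ^ 2 := h1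
    linarith
  calc ∑ a, ψ a ^ 2 = c * (c⁻¹ * ∑ a, ψ a ^ 2) := by field_simp
    _ ≤ c * (c * ∑ a, φ a ^ 2) := mul_le_mul_of_nonneg_left h6 hc0.le
    _ = _ := by ring

theorem iter_sum (hk : 0 < k) (z : Fin k → Perm X) (f : X → ℝ) (t : ℕ) :
    ∑ a, (lazy z)^[t] f a = ∑ a, f a := by
  induction t with
  | zero => rfl
  | succ t ih => rw [Function.iterate_succ_apply', lazy_sum hk, ih]

theorem iter_contr (hk : 0 < k) {z : Fin k → Perm X} {ε : ℝ} (hε1 : ε ≤ 1)
    (hgap : Gap z ε) (φ : X → ℝ) (h0 : ∑ a, φ a = 0) (t : ℕ) :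
    ∑ a, (lazy z)^[t] φ a ^ 2 ≤ ((1 - ε / 2) ^ t) ^ 2 * ∑ a, φ a ^ 2 := by
  induction t with
  | zero => simp
  | succ t ih =>
    rw [Function.iterate_succ_apply']
    refine (lazy_contr hk hε1 hgap _ (by rw [iter_sum hk, h0])).trans ?_
    calc (1 - ε / 2) ^ 2 * ∑ a, (lazy z)^[t] φ a ^ 2 ≤
        (1 - ε / 2) ^ 2 * (((1 - ε / 2) ^ t) ^ 2 * ∑ a, φ a ^ 2) :=
          mul_le_mul_of_nonneg_left ih (sq_nonneg _)
      _ = _ := by rw [pow_succ]; ring

theorem iter_sub_const (hk : 0 < k) (z : Fin k → Perm X) (f : X → ℝ) (c : ℝ) (t : ℕ) (a : X) :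
    (lazy z)^[t] (fun a => f a - c) a = (lazy z)^[t] f a - c := by
  induction t generalizing a with
  | zero => rfl
  | succ t ih =>
    rw [Function.iterate_succ_apply', Function.iterate_succ_apply']
    have h : (lazy z)^[t] (fun a => f a - c) = fun a => (lazy z)^[t] f a - c * 1 := by
      funext b; rw [ih b, mul_one]
    rw [h, lazy_sub z _ (fun _ => 1) c]
    have hk' : (k : ℝ) ≠ 0 := by
      have : k ≠ 0 := by omega
      exact_mod_cast this
    have h1 : lazy z (fun _ => (1 : ℝ)) a = 1 := by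
      unfold lazy
      rw [Finset.sum_const, Finset.card_univ, Fintype.card_fin, nsmul_eq_mul]
      field_simp
      ring
    rw [h1, mul_one]

/-- near uniformity of the lazy walk -/
theorem iter_delta (hk : 0 < k) {z : Fin k → Perm X} {ε : ℝ} (hε1 : ε ≤ 1)
    (hgap : Gap z ε) (t : ℕ) (a b : X) :
    |(lazy z)^[t] (fun c => if c = b then 1 else 0) a - 1 / (Fintype.card X : ℝ)| ≤
      (1 - ε / 2) ^ t := by
  have hN : (0 : ℝ) < Fintype.card X := by
    have : 0 < Fintype.card X := Fintype.card_pos_iff.2 ⟨a⟩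
    exact_mod_cast this
  set N : ℝ := (Fintype.card X : ℝ) with hNd
  set f : X → ℝ := fun c => if c = b then 1 else 0 with hf
  have hfs : ∑ a, f a = 1 := by simp [hf]
  have h0 : ∑ a, (f a - 1 / N) = 0 := by
    rw [Finset.sum_sub_distrib, hfs, Finset.sum_const, Finset.card_univ, nsmul_eq_mul, ← hNd]
    field_simp
    ring
  have h1 := iter_contr hk hε1 hgap (fun a => f a - 1 / N) h0 t
  have h2 : ∑ a, (f a - 1 / N) ^ 2 ≤ 1 := by
    have e1 : ∀ a, (f a - 1 / N) ^ 2 = f a - 2 * (1 / N) * f a + (1 / N) ^ 2 := by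
      intro a
      have : f a ^ 2 = f a := by simp only [hf]; split_ifs <;> simp
      calc (f a - 1 / N) ^ 2 = f a ^ 2 - 2 * (1 / N) * f a + (1 / N) ^ 2 := by ring
        _ = _ := by rw [this]
    simp_rw [e1]
    rw [Finset.sum_add_distrib, Finset.sum_sub_distrib, ← Finset.mul_sum, hfs, Finset.sum_const,
      Finset.card_univ, nsmul_eq_mul, ← hNd]
    have : N * (1 / N) ^ 2 = 1 / N := by field_simp
    rw [this]
    have : 0 < 1 / N := by positivity
    linarith
  have h3 : ((lazy z)^[t] (fun a => f a - 1 / N) a) ^ 2 ≤ ((1 - ε / 2) ^ t) ^ 2 := by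
    calc ((lazy z)^[t] (fun a => f a - 1 / N) a) ^ 2 ≤
        ∑ a, (lazy z)^[t] (fun a => f a - 1 / N) a ^ 2 :=
          Finset.single_le_sum (f := fun a => (lazy z)^[t] (fun a => f a - 1 / N) a ^ 2)
            (fun a _ => sq_nonneg _) (Finset.mem_univ a)
      _ ≤ _ := h1
      _ ≤ ((1 - ε / 2) ^ t) ^ 2 * 1 := mul_le_mul_of_nonneg_left h2 (sq_nonneg _)
      _ = _ := mul_one _
  rw [iter_sub_const hk] at h3
  exact abs_le_of_sq_le_sq h3 (pow_nonneg (by linarith) _)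

end gen

variable {n k : ℕ}

/-- the law of a lazy random word -/
noncomputable def kap (x : Fin k → Perm (Fin n)) : ℕ → Perm (Fin n) → ℝ
  | 0 => fun g => if g = 1 then 1 else 0
  | t + 1 => fun g => kap x t g / 2 +
      (4 * (k : ℝ))⁻¹ * ∑ i, (kap x t ((x i)⁻¹ * g) + kap x t (x i * g))

theorem kap_nonneg (x : Fin k → Perm (Fin n)) (t : ℕ) (g : Perm (Fin n)) : 0 ≤ kap x t g := by
  induction t generalizing g with
  | zero => unfold kap; split_ifs <;> norm_num
  | succ t ih =>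
    unfold kap
    have := ih g
    have : 0 ≤ ∑ i, (kap x t ((x i)⁻¹ * g) + kap x t (x i * g)) :=
      Finset.sum_nonneg fun i _ => add_nonneg (ih _) (ih _)
    positivity

theorem kap_reach (x : Fin k → Perm (Fin n)) (t : ℕ) (g : Perm (Fin n)) (h : kap x t g ≠ 0) :
    Reach x t g := by
  induction t generalizing g with
  | zero =>
    unfold kap at h
    have : g = 1 := by
      by_contra h1
      exact h (if_neg h1)
    rw [this]
    exact Reach.one _
  | succ t ih =>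
    by_cases h0 : kap x t g = 0
    · have : ∃ i, kap x t ((x i)⁻¹ * g) ≠ 0 ∨ kap x t (x i * g) ≠ 0 := by
        by_contra hall
        push Not at hall
        apply h
        unfold kap
        rw [h0, Finset.sum_eq_zero fun i _ => by rw [(hall i).1, (hall i).2, add_zero]]
        simp
      obtain ⟨i, hi | hi⟩ := this
      · have h1 := (Reach.gen (x := x) i).mul (ih _ hi)
        rw [mul_inv_cancel_left] at h1
        exact h1.mono (by omega)
      · have h1 := (Reach.gen (x := x) i).inv.mul (ih _ hi)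
        rw [inv_mul_cancel_left] at h1
        exact h1.mono (by omega)
    · exact (ih g h0).mono (by omega)

/-- the walk of the action of the word on tuples -/
theorem kap_iter (x : Fin k → Perm (Fin n)) (r t : ℕ) (f : (Fin r ↪ Fin n) → ℝ)
    (a : Fin r ↪ Fin n) :
    ∑ g, kap x t g * f (act r g a) = (lazy fun i => act r (x i))^[t] f a := by
  induction t generalizing f with
  | zero => simp [kap]
  | succ t ih =>
    rw [Function.iterate_succ_apply, ← ih]
    have h1 : ∀ i, ∑ g, kap x t ((x i)⁻¹ * g) * f (act r g a) =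
        ∑ g, kap x t g * f (act r (x i) (act r g a)) := by
      intro i
      rw [← Equiv.sum_comp (Equiv.mulLeft (x i))]
      refine Finset.sum_congr rfl fun g _ => ?_
      rw [Equiv.coe_mulLeft, inv_mul_cancel_left, map_mul, Perm.mul_apply]
    have h2 : ∀ i, ∑ g, kap x t (x i * g) * f (act r g a) =
        ∑ g, kap x t g * f ((act r (x i))⁻¹ (act r g a)) := by
      intro i
      rw [← Equiv.sum_comp (Equiv.mulLeft (x i)⁻¹)]
      refine Finset.sum_congr rfl fun g _ => ?_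
      rw [Equiv.coe_mulLeft, mul_inv_cancel_left, map_mul, Perm.mul_apply, map_inv]
    have h3 : ∀ g, kap x (t + 1) g * f (act r g a) = kap x t g * f (act r g a) / 2 +
        (4 * (k : ℝ))⁻¹ * ∑ i, (kap x t ((x i)⁻¹ * g) * f (act r g a) +
          kap x t (x i * g) * f (act r g a)) := by
      intro g
      simp_rw [← add_mul]
      rw [← Finset.sum_mul]
      conv_lhs => unfold kap
      ring
    have h4 : ∀ g, kap x t g * lazy (fun i => act r (x i)) f (act r g a) =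
        kap x t g * f (act r g a) / 2 +
        (4 * (k : ℝ))⁻¹ * ∑ i, (kap x t g * f (act r (x i) (act r g a)) +
          kap x t g * f ((act r (x i))⁻¹ (act r g a))) := by
      intro g
      simp_rw [← mul_add]
      rw [← Finset.mul_sum]
      unfold lazy
      ring
    simp_rw [h3, h4]
    rw [Finset.sum_add_distrib, Finset.sum_add_distrib, ← Finset.mul_sum, ← Finset.mul_sum,
      Finset.sum_comm (s := Finset.univ) (t := Finset.univ)
        (f := fun g i => kap x t ((x i)⁻¹ * g) * f (act r g a) +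
          kap x t (x i * g) * f (act r g a)),
      Finset.sum_comm (s := Finset.univ) (t := Finset.univ)
        (f := fun g i => kap x t g * f (act r (x i) (act r g a)) +
          kap x t g * f ((act r (x i))⁻¹ (act r g a)))]
    congr 2
    refine Finset.sum_congr rfl fun i _ => ?_
    rw [Finset.sum_add_distrib, Finset.sum_add_distrib, h1, h2]

theorem kap_sum (hk : 0 < k) (x : Fin k → Perm (Fin n)) (t : ℕ) : ∑ g, kap x t g = 1 := by
  induction t with
  | zero => simp [kap]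
  | succ t ih =>
    have h3 : ∀ g, kap x (t + 1) g = kap x t g / 2 +
        (4 * (k : ℝ))⁻¹ * ∑ i, (kap x t ((x i)⁻¹ * g) + kap x t (x i * g)) := fun g => rfl
    simp_rw [h3]
    rw [Finset.sum_add_distrib, ← Finset.mul_sum, Finset.sum_comm, ← Finset.sum_div, ih]
    have h1 : ∀ i, ∑ g, (kap x t ((x i)⁻¹ * g) + kap x t (x i * g)) = 2 := by
      intro i
      have e1 := Equiv.sum_comp (Equiv.mulLeft (x i)⁻¹) (kap x t)
      have e2 := Equiv.sum_comp (Equiv.mulLeft (x i)) (kap x t)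
      simp only [Equiv.coe_mulLeft] at e1 e2
      rw [Finset.sum_add_distrib, e1, e2, ih]
      norm_num
    simp_rw [h1]
    rw [Finset.sum_const, Finset.card_univ, Fintype.card_fin, nsmul_eq_mul]
    have hk' : (k : ℝ) ≠ 0 := by
      have : k ≠ 0 := by omega
      exact_mod_cast this
    field_simp
    norm_num

/-- a pair of distinct points -/
def pr (u u' : Fin n) (h : u ≠ u') : Fin 2 ↪ Fin n :=
  ⟨![u, u'], by
    intro i j hij
    fin_cases i <;> fin_cases j <;> simp_all⟩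

theorem act_pr_iff (g : Perm (Fin n)) {u u' v v' : Fin n} (h : u ≠ u') (h' : v ≠ v') :
    act 2 g (pr u u' h) = pr v v' h' ↔ (g u = v ∧ g u' = v') := by
  constructor
  · intro e
    have e0 := congrArg (fun c : Fin 2 ↪ Fin n => c 0) e
    have e1 := congrArg (fun c : Fin 2 ↪ Fin n => c 1) e
    exact ⟨e0, e1⟩
  · rintro ⟨e0, e1⟩
    ext i
    fin_cases i
    · exact congrArg Fin.val e0
    · exact congrArg Fin.val e1

theorem pair_sum (hk : 0 < k) (x : Fin k → Alt n) {ε : ℝ} (hε1 : ε ≤ 1)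
    (hgap : TupleGap x 2 ε) (t : ℕ) {u u' v v' : Fin n} (h : u ≠ u') (h' : v ≠ v') :
    |∑ g ∈ Finset.univ.filter (fun g : Perm (Fin n) => g u = v ∧ g u' = v'),
      kap (fun i => (x i : Perm (Fin n))) t g - 1 / ((n : ℝ) * (n - 1))| ≤ (1 - ε / 2) ^ t := by
  classical
  have h1 := iter_delta hk (z := fun i => act 2 (x i : Perm (Fin n))) hε1
    (fun φ hφ => hgap φ hφ) t (pr u u' h) (pr v v' h')
  rw [← kap_iter (fun i => (x i : Perm (Fin n))) 2 t] at h1
  have h2 : ∑ g, kap (fun i => (x i : Perm (Fin n))) t g *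
      (if act 2 g (pr u u' h) = pr v v' h' then (1 : ℝ) else 0) =
      ∑ g ∈ Finset.univ.filter (fun g : Perm (Fin n) => g u = v ∧ g u' = v'),
        kap (fun i => (x i : Perm (Fin n))) t g := by
    rw [Finset.sum_filter]
    refine Finset.sum_congr rfl fun g _ => ?_
    rw [mul_ite, mul_one, mul_zero]
    simp only [act_pr_iff]
  rw [h2, Fintype.card_embedding_eq, Fintype.card_fin, Fintype.card_fin] at h1
  have h3 : ((n.descFactorial 2 : ℕ) : ℝ) = (n : ℝ) * (n - 1) := by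
    have hn : 1 ≤ n := by
      have := u.2
      omega
    rw [Nat.descFactorial_succ, Nat.descFactorial_one]
    push_cast [Nat.cast_sub hn]
    ring
  rw [h3] at h1
  exact h1

theorem thm : Pool.Agent.Helper6.AK.S_NUL := by
  classical
  intro n k hk hn x ε hε hε1 hgap t ht
  have hn0 : (0 : ℝ) < n := by
    have : 0 < n := by omega
    exact_mod_cast this
  have hn4 : (4 : ℝ) ≤ n := by exact_mod_cast hn
  have hP : ∀ {u u' v v' : Fin n}, u ≠ u' → v ≠ v' →
      |∑ g ∈ Finset.univ.filter (fun g : Perm (Fin n) => g u = v ∧ g u' = v'),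
        kap (fun i => (x i : Perm (Fin n))) t g - 1 / ((n : ℝ) * (n - 1))| ≤ 1 / (n : ℝ) ^ 4 :=
    fun h h' => (pair_sum hk x hε1 hgap t h h').trans ht
  refine ⟨kap (fun i => (x i : Perm (Fin n))) t, ⟨kap_nonneg _ t, kap_sum hk _ t, ?_, ?_⟩,
    fun h hh => kap_reach _ t h hh⟩
  · intro u v
    obtain ⟨u', hu'⟩ : ∃ u' : Fin n, u ≠ u' := by
      by_cases h0 : u = ⟨0, by omega⟩
      · refine ⟨⟨1, by omega⟩, ?_⟩
        rw [h0]
        intro h
        have := congrArg Fin.val h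
        simp at this
      · exact ⟨_, h0⟩
    have h1 : ∑ g ∈ Finset.univ.filter (fun g : Perm (Fin n) => g u = v),
        kap (fun i => (x i : Perm (Fin n))) t g =
        ∑ v' ∈ Finset.univ.erase v,
          ∑ g ∈ Finset.univ.filter (fun g : Perm (Fin n) => g u = v ∧ g u' = v'),
            kap (fun i => (x i : Perm (Fin n))) t g := by
      rw [← Finset.sum_biUnion]
      · refine Finset.sum_congr ?_ fun _ _ => rfl
        ext g
        simp only [Finset.mem_filter, Finset.mem_univ, true_and, Finset.mem_biUnion,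
          Finset.mem_erase, and_true]
        constructor
        · intro hg
          refine ⟨g u', ?_, hg, rfl⟩
          rw [← hg]
          exact fun h => hu' (g.injective h).symm
        · rintro ⟨_, _, hg, _⟩
          exact hg
      · intro a _ b _ hab
        rw [Function.onFun, Finset.disjoint_left]
        intro g hg hg'
        rw [Finset.mem_filter] at hg hg'
        exact hab (hg.2.2.symm.trans hg'.2.2)
    have hcard : (Finset.univ.erase v : Finset (Fin n)).card = n - 1 := by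
      rw [Finset.card_erase_of_mem (Finset.mem_univ _), Finset.card_univ, Fintype.card_fin]
    have hcast : ((n - 1 : ℕ) : ℝ) = (n : ℝ) - 1 := by
      rw [Nat.cast_sub (by omega), Nat.cast_one]
    have h2 : (1 : ℝ) / n = ∑ v' ∈ Finset.univ.erase v, 1 / ((n : ℝ) * (n - 1)) := by
      rw [Finset.sum_const, hcard, nsmul_eq_mul, hcast]
      have : (n : ℝ) - 1 ≠ 0 := by linarith
      field_simp
    rw [h1, h2, ← Finset.sum_sub_distrib]
    refine (Finset.abs_sum_le_sum_abs _ _).trans ?_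
    refine (Finset.sum_le_sum (g := fun _ => 1 / (n : ℝ) ^ 4) fun v' hv' => ?_).trans ?_
    · exact hP hu' (Finset.ne_of_mem_erase hv').symm
    · rw [Finset.sum_const, hcard, nsmul_eq_mul, hcast]
      calc ((n : ℝ) - 1) * (1 / (n : ℝ) ^ 4) ≤ n * (1 / (n : ℝ) ^ 4) := by
            gcongr
            linarith
        _ = 1 / (n : ℝ) ^ 3 := by field_simp
  · intro u u' v v' huu
    by_cases hv : v = v'
    · have : Finset.univ.filter (fun g : Perm (Fin n) => g u = v ∧ g u' = v') = ∅ := by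
        rw [Finset.filter_eq_empty_iff]
        intro g _ hg
        exact huu (g.injective (hg.1.trans (hv.trans hg.2.symm)))
      rw [this, Finset.sum_empty]
      positivity
    · have h1 := (abs_le.1 (hP huu hv)).2
      have h2 : 1 / ((n : ℝ) * (n - 1)) ≤ (4 / 3) / (n : ℝ) ^ 2 := by
        rw [div_le_div_iff₀ (by nlinarith) (by positivity)]
        nlinarith
      have h3 : 1 / (n : ℝ) ^ 4 ≤ (1 / 16) / (n : ℝ) ^ 2 := by
        rw [div_le_div_iff₀ (by positivity) (by positivity)]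
        have e1 : (16 : ℝ) ≤ (n : ℝ) ^ 2 := by nlinarith
        have e2 : 0 < (n : ℝ) ^ 2 := by positivity
        nlinarith
      have h4 : (4 / 3) / (n : ℝ) ^ 2 + (1 / 16) / (n : ℝ) ^ 2 ≤ 2 / (n : ℝ) ^ 2 := by
        rw [← add_div]
        gcongr
        norm_num
      linarith

end Pool.Agent.Helper42.AK
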